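import Pool.Agent.W2helper5.KA.Stm

/-!
Project KA, piece SSQ: the antipode of an abelian extension is an involution
-/

set_option autoImplicit false

namespace Pool.Agent.W2helper81.KA

open TensorProduct
open Pool.Agent.W2helper5.KA

section

variable {k F Γ : Type} [Field k] [Group F] [Group Γ] (D : Dat k F Γ)

lemma r1 (x : F) : D.r 1 x = 1 := by
  have h := D.r_st 1 1 x
  rw [D.l_one, mul_one] at h
  exact (mul_eq_left.1 h.symm)

lemma l1 (s : Γ) : D.l s 1 = 1 := by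
  have h := D.l_xy s 1 1
  rw [D.r_one, mul_one] at h
  exact (mul_eq_left.1 h.symm)

lemma ri (s : Γ) (x : F) : D.r s⁻¹ (D.l s x) = (D.r s x)⁻¹ := by
  have h := D.r_st s⁻¹ s x
  rw [inv_mul_cancel, r1] at h
  exact eq_inv_of_mul_eq_one_left h.symm

lemma li (s : Γ) (x : F) : D.l (D.r s x) x⁻¹ = (D.l s x)⁻¹ := by
  have h := D.l_xy s x x⁻¹
  rw [mul_inv_cancel, l1] at h
  exact eq_inv_of_mul_eq_one_right h.symm

lemma ll' (s : Γ) (x : F) : D.l s⁻¹ (D.l s x) = x := by
  rw [← D.l_mul, inv_mul_cancel, D.l_one]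

lemma rr' (s : Γ) (x : F) : D.r (D.r s x) x⁻¹ = s := by
  rw [← D.r_mul, mul_inv_cancel, D.r_one]

lemma rr (s : Γ) (x : F) : D.r (D.r s x)⁻¹ (D.l s x)⁻¹ = s⁻¹ := by
  rw [← ri, rr']

lemma ll (s : Γ) (x : F) : D.l (D.r s x)⁻¹ (D.l s x)⁻¹ = x⁻¹ := by
  rw [← li, ll']

lemma tau (t : Γ) (x : F) : D.τ (D.l t x) t t⁻¹ = D.τ x t⁻¹ t := by
  have h := D.coc₂ x t t⁻¹ t
  rw [mul_inv_cancel, inv_mul_cancel, D.τ_one₁, D.τ_one₂, one_mul, one_mul] at h
  exact h

lemma sig (t : Γ) (x : F) : D.σ (D.r t x) x⁻¹ x = D.σ t x x⁻¹ := by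
  have h := D.coc₁ t x x⁻¹ x
  rw [mul_inv_cancel, inv_mul_cancel, D.σ_one₁, D.σ_one₂, mul_one, mul_one] at h
  exact h

/-- the scalar of the antipode -/
noncomputable def mu (p : Γ × F) : k :=
  (D.τ p.2 p.1⁻¹ p.1 * D.σ p.1⁻¹ (D.l p.1 p.2) (D.l p.1 p.2)⁻¹)⁻¹

lemma mu_mu (s : Γ) (x : F) : mu D (s, x) * mu D ((D.r s x)⁻¹, (D.l s x)⁻¹) = 1 := by
  unfold mu
  simp only
  rw [← mul_inv, inv_eq_one, inv_inv, ll, inv_inv, sig]
  have h1 : D.τ (D.l s x)⁻¹ (D.r s x) (D.r s x)⁻¹ = D.τ x⁻¹ (D.r s x)⁻¹ (D.r s x) := by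
    rw [← li, tau]
  rw [h1]
  have h := D.coc₃ s⁻¹ s x x⁻¹
  rw [inv_mul_cancel, mul_inv_cancel, D.σ_one₀, D.τ_one₀, li, ri, one_mul] at h
  rw [h]
  ring

end

theorem SSQ : P_SSQ := by
  intro k F Γ H _ _ _ _ _ _ _ _ _ D b hb
  classical
  set S' : H →ₗ[k] H := b.constr k (fun p : Γ × F => mu D p • b ((D.r p.1 p.2)⁻¹, (D.l p.1 p.2)⁻¹))
    with hS'
  have hS : ∀ s x, S' (b (s, x)) = mu D (s, x) • b ((D.r s x)⁻¹, (D.l s x)⁻¹) := by
    intro s x
    rw [hS', Module.Basis.constr_basis]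
  -- `S'` is a left inverse
  have hleft : WithConv.toConv S' * WithConv.toConv (LinearMap.id : H →ₗ[k] H) = 1 := by
    rw [LinearMap.convMul_def, LinearMap.convOne_def]
    congr 1
    refine b.ext fun p => ?_
    obtain ⟨s, x⟩ := p
    have h1 : (LinearMap.mul' k H ∘ₗ TensorProduct.map S' (LinearMap.id : H →ₗ[k] H) ∘ₗ
        Coalgebra.comul (R := k) (A := H)) (b (s, x)) =
        ∑ t, D.τ x (s * t⁻¹) t • (S' (b (s * t⁻¹, D.l t x)) * b (t, x)) := by
      rw [LinearMap.comp_apply, LinearMap.comp_apply, hb.comul, map_sum, map_sum]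
      refine Finset.sum_congr rfl fun t _ => ?_
      rw [map_smul, map_smul, TensorProduct.map_tmul, LinearMap.mul'_apply, LinearMap.id_apply]
    have h2 : (Algebra.linearMap k H ∘ₗ Coalgebra.counit (R := k) (A := H)) (b (s, x)) =
        if s = 1 then 1 else 0 := by
      rw [LinearMap.comp_apply, hb.counit, Algebra.linearMap_apply]
      split_ifs <;> simp
    refine Eq.trans h1 (Eq.trans ?_ h2.symm)
    have h3 : ∀ t : Γ, S' (b (s * t⁻¹, D.l t x)) * b (t, x) = if s = 1 then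
        (mu D (t⁻¹, D.l t x) * D.σ (D.r t x) x⁻¹ x) • b (D.r t x, 1) else 0 := by
      intro t
      rw [hS, smul_mul_assoc, hb.mul, rr]
      by_cases hs : s = 1
      · subst hs
        rw [one_mul, inv_inv, if_pos rfl, if_pos rfl, ll', ri, inv_inv, inv_mul_cancel, smul_smul]
      · rw [if_neg hs, if_neg, smul_zero]
        intro h
        apply hs
        rw [mul_inv_rev, inv_inv] at h
        have := mul_eq_left.1 h
        exact inv_eq_one.1 this
    simp_rw [h3]
    by_cases hs : s = 1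
    · subst hs
      simp only [if_true, one_mul]
      have h4 : ∀ t : Γ, D.τ x t⁻¹ t • ((mu D (t⁻¹, D.l t x) * D.σ (D.r t x) x⁻¹ x) • b (D.r t x, 1)) =
          b (D.r t x, 1) := by
        intro t
        rw [smul_smul]
        have e : D.τ x t⁻¹ t * (mu D (t⁻¹, D.l t x) * D.σ (D.r t x) x⁻¹ x) = 1 := by
          unfold mu
          simp only
          rw [inv_inv, ll', tau, sig]
          have a1 := D.τ_ne x t⁻¹ t
          have a2 := D.σ_ne t x x⁻¹
          field_simp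
        rw [e, one_smul]
      simp_rw [h4]
      rw [hb.one]
      refine Finset.sum_bij' (fun t _ => D.r t x) (fun t _ => D.r t x⁻¹) ?_ ?_ ?_ ?_ ?_
      · intros; exact Finset.mem_univ _
      · intros; exact Finset.mem_univ _
      · intro t _
        exact rr' D t x
      · intro t _
        have := rr' D t x⁻¹
        rw [inv_inv] at this
        exact this
      · intros; rfl
    · simp [hs]
  have hanti : S' = HopfAlgebra.antipode k (A := H) := by
    have h1 := left_inv_eq_right_inv hleft (LinearMap.id_mul_antipode (R := k) (C := H))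
    exact congrArg WithConv.ofConv h1
  rw [← hanti]
  refine b.ext fun p => ?_
  obtain ⟨s, x⟩ := p
  rw [LinearMap.comp_apply, hS, map_smul, hS, rr, ll, inv_inv, inv_inv, smul_smul, mu_mu, one_smul,
    LinearMap.id_apply]

end Pool.Agent.W2helper81.KA
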